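import Pool.Agent.N181.Ab.Final

/-!
# MP_557161_ag: the formula of Tate modulo two for all products of abelian varieties, and for their
products with all varieties

For a smooth projective variety `Z` over an algebraic closure of a finite field, `ρ_c(Z)` is the rank
of the group of cycles of codimension `c` modulo numerical equivalence, and the defect `δ_c(Z)` is
the order of the pole at `s = c` of the zeta function of `Z` over a large finite field, minus
`ρ_c(Z)`. The formula of Tate says that `δ_c(Z) = 0`.

Let `X` be any product of abelian varieties: of any dimension, with no condition on the endomorphisms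
or the Newton polygons.

* **`δ_c(X)` is even for all `c`**: the formula of Tate holds for `X` modulo two.
* **For all varieties `Y`** and all `c`, with sums over `i + j = c`:
  `ρ_c(X × Y) ≡ ∑ ρ_i(X) ρ_j(Y)` modulo two, `δ_c(X × Y) ≥ ∑ ρ_i(X) δ_j(Y)`, and
  `δ_c(X × Y) ≡ ∑ ρ_i(X) δ_j(Y)` modulo two.

Nothing is assumed on `Y`. The predicate `IsAbelian` lists known properties: the structure of the
cohomology algebra, hard Lefschetz, the semisimplicity of Frobenius (Weil), and the theorem of Tate
on endomorphisms. The Riemann hypothesis (Deligne) is a hypothesis.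
-/

set_option autoImplicit false

open CategoryTheory AlgebraicGeometry

universe u v

namespace Pool.Agent.Results.MP_557161_ag.AbelianParity

open Pool.Agent.H914 Pool.Agent.W534 Pool.Agent.N181.Mod Pool.Agent.N181.Ab

/-- **The formula of Tate modulo two for abelian varieties, and for their products with all
varieties.** -/
theorem result {k : Type u} [Field k] {𝒱 : VarClass k} {ops : CycleOps 𝒱}
    (W : WeilCohomology.{u, v} ops) [IsAlgClosed W.K] (σ : W.K →+* ℂ) (p : ℕ) (hp : p.Prime)
    (Φ : FrobSystem W p) (hRH : ∀ Z : 𝒱.Obj, RiemannHyp Φ σ Z) (X : 𝒱.Obj)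
    (hX : ProdOf (fun Z => ∃ m D, IsAbelian Φ Z m D) X) :
    TateMod Φ σ 2 X ∧ KunnethMod Φ σ 2 X :=
  main2 W σ p hp Φ hRH X hX

end Pool.Agent.Results.MP_557161_ag.AbelianParity
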