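import Pool.Agent.N181.Gap.Final

/-!
# MP_557161_ag: algebraic cycles account for all of the poles of the zeta functions of the powers of
a variety, or asymptotically for at most half of them

For a smooth projective variety `X` over an algebraic closure of a finite field, let `R(X)` be the
sum over `c = 0, …, dim X` of the ranks of the groups of cycles of codimension `c` modulo numerical
equivalence, and let `P(X)` be the sum of the orders of the poles at `s = 0, …, dim X` of the zeta
function of `X` over a large finite field. Always `R(X) ≤ P(X)`, with equality if and only if the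
formula of Tate holds for `X` in all codimensions.

Let `Y` be **any** variety. Then:

* either the formula of Tate holds for **all the powers** of `Y` in **all codimensions** (so
  `R(Y ^ n) = P(Y ^ n)` for all `n`),
* or, for **every** variety `Z`, there are `C` and `θ < 1` such that, for all `n`,
  `R(Y ^ n × Z) ≤ (1 / 2 + C θ ^ n) P(Y ^ n × Z)`.

So the formula of Tate holds for `Y`, and for all its powers, as soon as, for one variety `Z` and one
`ε > 0`, cycles account for more than the proportion `1 / 2 + ε` of the poles of the zeta functions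
of `Y ^ n × Z` for infinitely many `n`. Nothing is assumed on `Y` and `Z`; the Riemann hypothesis
(Deligne) is a hypothesis.
-/

set_option autoImplicit false

open CategoryTheory AlgebraicGeometry

universe u v

namespace Pool.Agent.Results.MP_557161_ag.HalfShare

open Pool.Agent.H914 Pool.Agent.W534 Pool.Agent.N181.Gap

/-- **All or at most half of the poles.** -/
theorem result {k : Type u} [Field k] {𝒱 : VarClass k} {ops : CycleOps 𝒱}
    (W : WeilCohomology.{u, v} ops) [IsAlgClosed W.K] (σ : W.K →+* ℂ) (p : ℕ) (hp : p.Prime)
    (Φ : FrobSystem W p) (hRH : ∀ Z : 𝒱.Obj, RiemannHyp Φ σ Z) (Y : 𝒱.Obj) :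
    (∀ n, TateFormula Φ σ (powProd Y Y n)) ∨
    ∀ Z : 𝒱.Obj, ∃ C θ : ℝ, 0 ≤ C ∧ 0 ≤ θ ∧ θ < 1 ∧ ∀ n, ∃ P : ℕ,
      PoleSum Φ σ (powProd Y Z n) P ∧
      (rkSum ops (powProd Y Z n) : ℝ) ≤ (1 / 2 + C * θ ^ n) * P :=
  main3 W σ p hp Φ hRH Y

end Pool.Agent.Results.MP_557161_ag.HalfShare
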