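import Pool.Agent.N181.Mod.Final1

/-!
# MP_557161_ag: the formula of Tate modulo `m` for products with arbitrary varieties

For a smooth projective variety `Z` over an algebraic closure of a finite field, `ρ_c(Z)` is the rank
of the group of cycles of codimension `c` modulo numerical equivalence, and the defect `δ_c(Z)` is
the order of the pole at `s = c` of the zeta function of a model of `Z` over a sufficiently large
finite field, minus `ρ_c(Z)`. The formula of Tate says that `δ_c(Z) = 0`.

Let `X` be a product of varieties `Z` of the following types:

* (`HasModCorr`) there is an algebraic correspondence `z` of degree `0` on `Z` with rational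
  coefficients such that all the generalised eigenspaces of `z`, and of its transpose, in the
  cohomology of `Z`, for the eigenvalues whose degree over the rational numbers is **not** divisible
  by `m`, consist of linear combinations of algebraic classes;
* (`IsCyclicCover`) `Z` has an automorphism of prime order `ℓ`, with `ℓ ≡ 1` modulo `m`, such that
  all the invariant classes are linear combinations of algebraic classes (for example, a cyclic
  covering of degree `ℓ` of a variety with a cellular decomposition).

Then **the formula of Tate holds for `X` modulo `m`**: `m` divides `δ_c(X)` for all `c`. Moreover,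
**for all varieties** `Y` and all `c`, with sums over `i + j = c`:

* `ρ_c(X × Y) ≡ ∑ ρ_i(X) ρ_j(Y)` modulo `m`;
* `δ_c(X × Y) ≥ ∑ ρ_i(X) δ_j(Y)`;
* **`δ_c(X × Y) ≡ ∑ ρ_i(X) δ_j(Y)` modulo `m`**.

Nothing is assumed on `Y`: neither the Tate conjecture, nor the semisimplicity of Frobenius, nor the coincidence
of homological and numerical equivalence. The Riemann hypothesis (the theorem of Deligne) is a
hypothesis of the theorem.
-/

set_option autoImplicit false

open CategoryTheory AlgebraicGeometry

universe u v

namespace Pool.Agent.Results.MP_557161_ag.KunnethModulo

open Pool.Agent.H914 Pool.Agent.W534 Pool.Agent.N181.Mod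

/-- **The formula of Tate modulo `m` for `X`, and the formula of Kunneth modulo `m` for the ranks of
the cycles and for the defects of the products of `X` with all varieties.** -/
theorem result {k : Type u} [Field k] {𝒱 : VarClass k} {ops : CycleOps 𝒱}
    (W : WeilCohomology.{u, v} ops) [IsAlgClosed W.K] (σ : W.K →+* ℂ) (p : ℕ) (hp : p.Prime)
    (Φ : FrobSystem W p) (hRH : ∀ Z : 𝒱.Obj, RiemannHyp Φ σ Z) (m : ℕ) (X : 𝒱.Obj)
    (hX : ProdOf (fun Z => HasModCorr W m Z ∨ IsCyclicCover W m Z) X) :
    TateMod Φ σ m X ∧ KunnethMod Φ σ m X :=
  main1T W σ p hp Φ hRH m X hX

end Pool.Agent.Results.MP_557161_ag.KunnethModulo
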