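import Pool.Agent.N522.VT.Main

/-!
# Tate classes and poles of zeta functions for the products of an arbitrary variety over a finite field
with elliptic curves and abelian surfaces: the splitting criterion

Let `V` be an **arbitrary** smooth projective variety over the field with `p ^ a` elements and let `Y` be
**any** product of elliptic curves and abelian surfaces over a finite field of characteristic `p` (any
number of factors, any Newton polygons, any coincidences between the factors). By Deligne the
eigenvalues of Frobenius on `M = H^b(V)` are Weil numbers. We consider the (generalised) Tate classes in
the Künneth components `H^k(Y) ⊗ H^b(V)` of `H^{k+b}(Y × V)`, over all finite extensions of the ground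
field: their numbers are the orders of the poles of the zeta functions of `Y × V`.

An eigenvalue `α` is **separated** (`IsSeparated`) if **one** of the following conditions holds, where
`s` runs through the slopes of the conjugates of `α`:

1. all slopes are equal to `b / 2` (that is, a power of `α` is a power of `q`, up to the weight);
2. some slope is not in `(1/2) ℤ`;
3. `max |2 s - b| > 2 * mean ((2 s - b) ^ 2)`; for example: the mean value of `(2 s - b) ^ 2` is smaller than
   one half;
4. the Galois groups of the fields generated by the powers of `α` are large: they do not satisfy
   the identities `g ^ 4 = 1`, `g ^ 2 h = h g ^ 2`; for example, if the degrees of all powers of `α` are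
   not powers of two;
5. `α` is independent of `Y` (some automorphism fixes a power of `α` and induces complex conjugation on
   the CM fields of the factors of `Y`).

**Theorem.** Suppose that all eigenvalues of Frobenius on `H^b(V)` are separated. Then:

* all (generalised) Tate classes in `H^{2m}(Y) ⊗ H^b(V)`, over all finite extensions, are linear
  combinations of products `f ⊗ w` of an **algebraic** Tate class `f` on `Y` (`f` belongs to the system
  `AlgS Ω ∅` generated by divisors and by the reductions of the Hodge classes of degree four on CM
  abelian varieties which are products of elliptic curves and abelian surfaces — these Hodge classes are
  algebraic by known theorems) with a (generalised) Tate class `w ∈ H^b(V)`;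
* if no eigenvalue is an odd power of the square root of `q` up to a root of unity then there are no
  (generalised) Tate classes in `H^k(Y) ⊗ H^b(V)` for odd `k`.

So for these `V` **Tate's conjecture for `Y × V` in all degrees (with the order of the poles of the zeta
function, and with semisimplicity) follows from that for `V`**, for all products `Y` of elliptic curves and
abelian surfaces at once.

Examples. Each of 1.–4. is a condition on `V` alone, and it is a condition on the slopes or on the
Galois group and not on the relation between `V` and `Y`. (a) Surfaces, cubic fourfolds, and more
general varieties of K3 type with a Newton polygon of height `h`, `3 ≤ h < ∞`: condition 1. or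
2.; (b) ordinary varieties of K3 type for which the transcendental part has dimension at least ten:
condition 1. or 3. (the mean value is `8 / dim`, the maximum is two); (c) ordinary varieties of K3
type with transcendental part of dimension six: condition 1. or 4. The conditions are sharp: for
example for a K3 surface isogenous to a Kummer surface the conclusion is wrong.

What was known. For products of elliptic curves and abelian surfaces the theorem is due to Spiess
and is contained in the starting results. The starting result `FiveAndSurfacesTimesVarieties` treats
`Y × V` under hypothesis 5. only (for all eigenvalues); the starting helper theorem
`R937.VS.Final.main` shows that for arbitrary `V` all Tate classes are generated by those on products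
`Z × V` where the number of factors of `Z` is bounded in terms of the slopes of `V`. Here the classes on
`Z × V` are eliminated.

How the objects are modelled. `RedAV p ν` are the abelian varieties over finite fields of characteristic
`p`, up to isogeny over an algebraic closure: by Honda and Tate each of them is the reduction of a product
of abelian varieties of CM type, with Frobenius elements that satisfy the formula of Shimura and
Taniyama; the factor `Y.X.factor i` has the CM field `E`, and `[E : ℚ] ≤ 4` means: dimension at most two.
`M` is `H^b(V)` with coefficients in an algebraically closed field `Ω` of characteristic zero, with the
Frobenius endomorphism `φ`; the elements of `H^k(Y) ⊗ M` are the alternating maps in `k` variables from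
the Tate module of `Y` to `M`.

Idea of the proof. The relation between `α` and the eigenvalues of `Y` shows that the function
`2 s - b` on the Galois group `G` of a large CM field is a sum of averages, over the decomposition group, of
sign functions `f` which are stable under subgroups of index at most four not containing the complex
conjugation `c`. Such averages have values `0, 1, -1`; this gives 2. Squares act on the cosets of
such subgroups as `1` or as `c`, so fourth powers and commutators of squares act trivially on
the function, and by the theorem of Kronecker on a power of `α`; this gives 4. The sum has a short
representation, with length at most two times the mean value of the squares: this bounds the maximum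
and gives 3.
-/

namespace Pool.Agent.Results.MP_557161_ag.SeparatedTimesSurfaces

open Module Pool.Agent.W495.TA Pool.Agent.Y137.SF Pool.Agent.Y137.TV Pool.Agent.R937.VS
  Pool.Agent.N522.VT

/-- **Tate classes on the products of elliptic curves, abelian surfaces and an arbitrary variety whose
Frobenius eigenvalues are separated are linear combinations of products of algebraic classes with Tate
classes on this variety.** -/
theorem result (p : ℕ) [Fact p.Prime] (ν : PadicAlgCl p ≃+* ℂ) (Ω : Type) [Field Ω] [IsAlgClosed Ω]
    [CharZero Ω]
    -- the product of elliptic curves and abelian surfaces
    (Y : RedAV p ν) (hdim : ∀ i, finrank ℚ (Y.X.factor i).E ≤ 4)
    -- the cohomology `M = H^b(V)` of the variety `V` over the field with `p ^ a` elements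
    (M : Type) [AddCommGroup M] [Module Ω M] [FiniteDimensional Ω M] (a b : ℕ) (ha : 0 < a)
    (φ : M →ₗ[Ω] M) (hφ : ∀ α, End.HasEigenvalue φ α → IsSeparated Y a b α) (r : ℕ) :
    (∀ (m : ℕ) (g : (TM Ω Y) [⋀^Fin (2 * m)]→ₗ[Ω] M), IsTate a φ r Y g →
      g ∈ Submodule.span Ω {h | IsProductClass Y a b φ r m h}) ∧
    ((∀ α, End.HasEigenvalue φ α → ¬ IsOddSupersingular ((p : Ω) ^ a) α) →
      ∀ (k : ℕ), Odd k → ∀ g : (TM Ω Y) [⋀^Fin k]→ₗ[Ω] M, IsTate a φ r Y g → g = 0) :=
  main Y hdim a b ha φ hφ r

end Pool.Agent.Results.MP_557161_ag.SeparatedTimesSurfaces
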